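import Pool.Agent.W901.RL.Stm2

/-!
# Sampling many characters at once (task RL-SAMP)
-/

set_option autoImplicit false

namespace Pool.Agent.W32.RL

open Finset

theorem exp_chord {x c : ℝ} (hx : |x| ≤ 2) :
    Real.exp (c * x) ≤ (2 - x) / 4 * Real.exp (-(2 * c)) + (2 + x) / 4 * Real.exp (2 * c) := by
  obtain ⟨h1, h2⟩ := abs_le.1 hx
  have h := convexOn_exp.2 (Set.mem_univ (-(2 * c))) (Set.mem_univ (2 * c))
    (show 0 ≤ (2 - x) / 4 by linarith) (show 0 ≤ (2 + x) / 4 by linarith) (by ring)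
  simp only [smul_eq_mul] at h
  have e : (2 - x) / 4 * -(2 * c) + (2 + x) / 4 * (2 * c) = c * x := by ring
  rw [e] at h
  exact h

theorem sum_exp {ι : Type} [Fintype ι] (X : ι → ℝ) (hX : ∀ u, |X u| ≤ 2) (h0 : ∑ u, X u = 0)
    (c : ℝ) : ∑ u, Real.exp (c * X u) ≤ Fintype.card ι * Real.exp (2 * c ^ 2) := by
  have h1 : ∑ u, Real.exp (c * X u) ≤
      ∑ u, ((2 - X u) / 4 * Real.exp (-(2 * c)) + (2 + X u) / 4 * Real.exp (2 * c)) :=
    Finset.sum_le_sum fun u _ => exp_chord (hX u)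
  have h2 : ∑ u, ((2 - X u) / 4 * Real.exp (-(2 * c)) + (2 + X u) / 4 * Real.exp (2 * c)) =
      Fintype.card ι * Real.cosh (2 * c) := by
    have h3 : ∀ u, (2 - X u) / 4 * Real.exp (-(2 * c)) + (2 + X u) / 4 * Real.exp (2 * c) =
        Real.cosh (2 * c) + X u * ((Real.exp (2 * c) - Real.exp (-(2 * c))) / 4) := by
      intro u
      rw [Real.cosh_eq]
      ring
    rw [Finset.sum_congr rfl fun u _ => h3 u, Finset.sum_add_distrib, ← Finset.sum_mul, h0,
      zero_mul, add_zero, Finset.sum_const, nsmul_eq_mul, Finset.card_univ]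
  rw [h2] at h1
  refine h1.trans (mul_le_mul_of_nonneg_left ?_ (Nat.cast_nonneg _))
  have h4 := Real.cosh_le_exp_half_sq (2 * c)
  have e : (2 * c) ^ 2 / 2 = 2 * c ^ 2 := by ring
  rw [e] at h4
  exact h4

theorem cher {ι : Type} [Fintype ι] (X : ι → ℝ) (hX : ∀ u, |X u| ≤ 2) (h0 : ∑ u, X u = 0)
    {q k : ℕ} (hq : 1 ≤ q) :
    (((univ : Finset (Fin q → ι)).filter
      (fun f => Real.sqrt (16 * k * q) < ∑ l, X (f l))).card : ℝ) ≤
      (Fintype.card ι : ℝ) ^ q * (1 / 4) ^ k := by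
  classical
  have hq0 : (0 : ℝ) < q := by exact_mod_cast hq
  set t : ℝ := Real.sqrt (16 * k * q) with ht
  have ht2 : t ^ 2 = 16 * k * q := Real.sq_sqrt (by positivity)
  have ht0 : 0 ≤ t := Real.sqrt_nonneg _
  set c : ℝ := t / (4 * q) with hc
  have hc0 : 0 ≤ c := by positivity
  set F := (univ : Finset (Fin q → ι)).filter (fun f => t < ∑ l, X (f l)) with hF
  have h1 : (F.card : ℝ) * Real.exp (c * t) ≤ ∑ f : Fin q → ι, Real.exp (c * ∑ l, X (f l)) := by
    calc (F.card : ℝ) * Real.exp (c * t) = ∑ f ∈ F, Real.exp (c * t) := by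
          rw [Finset.sum_const, nsmul_eq_mul]
      _ ≤ ∑ f ∈ F, Real.exp (c * ∑ l, X (f l)) := by
          refine Finset.sum_le_sum fun f hf => Real.exp_le_exp.mpr ?_
          exact mul_le_mul_of_nonneg_left (Finset.mem_filter.1 hf).2.le hc0
      _ ≤ _ := Finset.sum_le_sum_of_subset_of_nonneg (Finset.filter_subset _ _)
          (fun f _ _ => (Real.exp_pos _).le)
  have h2 : ∑ f : Fin q → ι, Real.exp (c * ∑ l, X (f l)) = (∑ u, Real.exp (c * X u)) ^ q := by
    rw [Fintype.sum_pow]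
    refine Finset.sum_congr rfl fun f _ => ?_
    rw [Finset.mul_sum, Real.exp_sum]
  have h3 : (∑ u, Real.exp (c * X u)) ^ q ≤
      (Fintype.card ι : ℝ) ^ q * Real.exp (2 * c ^ 2 * q) := by
    refine (pow_le_pow_left₀ (Finset.sum_nonneg fun u _ => (Real.exp_pos _).le)
      (sum_exp X hX h0 c) q).trans (le_of_eq ?_)
    rw [mul_pow, ← Real.exp_nat_mul]
    congr 2
    ring
  have h4 : (F.card : ℝ) * Real.exp (c * t) ≤
      (Fintype.card ι : ℝ) ^ q * Real.exp (2 * c ^ 2 * q) := by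
    rw [h2] at h1
    exact h1.trans h3
  have h5 : (F.card : ℝ) ≤ (Fintype.card ι : ℝ) ^ q * Real.exp (2 * c ^ 2 * q - c * t) := by
    rw [Real.exp_sub, ← mul_div_assoc, le_div_iff₀ (Real.exp_pos _)]
    exact h4
  have h6 : 2 * c ^ 2 * q - c * t = k * (-2) := by
    have e1 : c * t = t ^ 2 / (4 * q) := by rw [hc]; ring
    have e2 : 2 * c ^ 2 * q = t ^ 2 / (8 * q) := by
      rw [hc, div_pow, mul_pow]
      field_simp
      ring
    rw [e1, e2, ht2]
    field_simp
    ring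
  rw [h6, Real.exp_nat_mul] at h5
  refine h5.trans (mul_le_mul_of_nonneg_left ?_ (by positivity))
  refine pow_le_pow_left₀ (Real.exp_pos _).le ?_ k
  have h7 : (4 : ℝ) ≤ Real.exp 2 := by
    have h8 : Real.exp 2 = Real.exp 1 * Real.exp 1 := by rw [← Real.exp_add]; norm_num
    have h9 := Real.add_one_le_exp (1 : ℝ)
    rw [h8]
    nlinarith
  rw [Real.exp_neg, one_div]
  exact inv_anti₀ (by norm_num) h7

theorem inj_card (N : ℕ) (hN : 0 < N) : ∀ q : ℕ, q ≤ N →
    (N : ℝ) ^ q * (1 - q ^ 2 / (2 * N)) ≤ (N.descFactorial q : ℝ) := by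
  intro q
  have hN0 : (0 : ℝ) < N := by exact_mod_cast hN
  induction q with
  | zero => intro _; simp
  | succ q ih =>
    intro h
    have h1 := ih (by omega)
    rw [Nat.descFactorial_succ]
    have hqN : (q : ℝ) ≤ N := by exact_mod_cast (by omega : q ≤ N)
    rw [Nat.cast_mul, Nat.cast_sub (by omega)]
    have h2 : ((N : ℝ) - q) * ((N : ℝ) ^ q * (1 - q ^ 2 / (2 * N))) ≤
        ((N : ℝ) - q) * (N.descFactorial q : ℝ) :=
      mul_le_mul_of_nonneg_left h1 (by linarith)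
    refine le_trans ?_ h2
    have h3 : ((N : ℝ) - q) * ((N : ℝ) ^ q * (1 - q ^ 2 / (2 * N))) =
        (N : ℝ) ^ (q + 1) * ((1 - q / N) * (1 - q ^ 2 / (2 * N))) := by
      have e0 : ((N : ℝ) - q) = N * (1 - q / N) := by field_simp
      rw [e0, pow_succ]
      ring
    rw [h3]
    apply mul_le_mul_of_nonneg_left _ (by positivity)
    have h4 : (1 - (q : ℝ) / N) * (1 - q ^ 2 / (2 * N)) =
        1 - q / N - q ^ 2 / (2 * N) + (q / N) * (q ^ 2 / (2 * N)) := by ring
    rw [h4]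
    have h5 : (0 : ℝ) ≤ (q / N) * (q ^ 2 / (2 * N)) := by positivity
    have h6 : (((q + 1 : ℕ)) : ℝ) ^ 2 / (2 * N) = q / N + q ^ 2 / (2 * N) + 1 / (2 * N) := by
      push_cast
      field_simp
      ring
    have h7 : (0 : ℝ) ≤ 1 / (2 * N) := by positivity
    rw [h6]
    linarith

theorem samp (ι : Type) [Fintype ι] (m q k : ℕ) (y : Fin m → ι → ℝ) (hq : 1 ≤ q) (hqm : q ≤ m)
    (hN : 2 * m ^ 2 ≤ Fintype.card ι) (hm : 8 * m ≤ 4 ^ k) (hy : ∀ i u, |y i u| ≤ 1) :
    ∃ f : Fin q → ι, Function.Injective f ∧ ∀ i : Fin m,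
      |∑ l, y i (f l) - q * ((∑ u, y i u) / Fintype.card ι)| ≤ Real.sqrt (16 * k * q) := by
  classical
  set N := Fintype.card ι with hNdef
  have hm1 : 1 ≤ m := hq.trans hqm
  have hm2 : m ≤ m ^ 2 := by nlinarith
  have hNpos : 0 < N := by omega
  have hqN : q ≤ N := by omega
  have hN0 : (0 : ℝ) < N := by exact_mod_cast hNpos
  set μ : Fin m → ℝ := fun i => (∑ u, y i u) / N with hμ
  have hμ1 : ∀ i, |μ i| ≤ 1 := by
    intro i
    rw [hμ]
    simp only
    rw [abs_div, abs_of_pos hN0, div_le_one hN0]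
    refine (Finset.abs_sum_le_sum_abs _ _).trans ?_
    refine (Finset.sum_le_sum fun u _ => hy i u).trans ?_
    rw [Finset.sum_const, nsmul_eq_mul, Finset.card_univ, mul_one]
  have hX2 : ∀ i u, |y i u - μ i| ≤ 2 := by
    intro i u
    have := abs_sub (y i u) (μ i)
    have h1 := hy i u
    have h2 := hμ1 i
    linarith
  have hX0 : ∀ i, ∑ u, (y i u - μ i) = 0 := by
    intro i
    rw [Finset.sum_sub_distrib, Finset.sum_const, nsmul_eq_mul, Finset.card_univ, hμ]
    simp only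
    rw [← hNdef]
    field_simp
    ring
  have hX0' : ∀ i, ∑ u, -(y i u - μ i) = 0 := by
    intro i
    rw [Finset.sum_neg_distrib, hX0, neg_zero]
  set t : ℝ := Real.sqrt (16 * k * q) with ht
  set Bp : Fin m → Finset (Fin q → ι) := fun i =>
    univ.filter (fun f => t < ∑ l, (y i (f l) - μ i)) with hBp
  set Bn : Fin m → Finset (Fin q → ι) := fun i =>
    univ.filter (fun f => t < ∑ l, -(y i (f l) - μ i)) with hBn
  have hp : ∀ i, ((Bp i).card : ℝ) ≤ (N : ℝ) ^ q * (1 / 4) ^ k := fun i =>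
    cher (fun u => y i u - μ i) (hX2 i) (hX0 i) hq
  have hn : ∀ i, ((Bn i).card : ℝ) ≤ (N : ℝ) ^ q * (1 / 4) ^ k := fun i =>
    cher (fun u => -(y i u - μ i)) (fun u => by rw [abs_neg]; exact hX2 i u) (hX0' i) hq
  set I : Finset (Fin q → ι) := univ.filter (fun f => Function.Injective f) with hI
  have hIcard : I.card = N.descFactorial q := by
    have h1 : I.card = Fintype.card {f : Fin q → ι // Function.Injective f} := by
      rw [Fintype.card_subtype]
    rw [h1, Fintype.card_congr (Equiv.subtypeInjectiveEquivEmbedding (Fin q) ι),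
      Fintype.card_embedding_eq, Fintype.card_fin]
  have hIlow : (N : ℝ) ^ q * (3 / 4) ≤ (I.card : ℝ) := by
    rw [hIcard]
    refine le_trans ?_ (inj_card N hNpos q hqN)
    apply mul_le_mul_of_nonneg_left _ (by positivity)
    have h1 : (q : ℝ) ^ 2 / (2 * N) ≤ 1 / 4 := by
      rw [div_le_iff₀ (by positivity)]
      have h2 : (q : ℝ) ^ 2 ≤ (m : ℝ) ^ 2 := by
        have : (q : ℝ) ≤ m := by exact_mod_cast hqm
        exact pow_le_pow_left₀ (Nat.cast_nonneg _) this 2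
      have h3 : 2 * (m : ℝ) ^ 2 ≤ N := by exact_mod_cast hN
      linarith
    linarith
  by_contra hcon
  push Not at hcon
  have hsub : I ⊆ (univ : Finset (Fin m)).biUnion (fun i => Bp i ∪ Bn i) := by
    intro f hf
    obtain ⟨i, hi⟩ := hcon f (Finset.mem_filter.1 hf).2
    rw [Finset.mem_biUnion]
    refine ⟨i, Finset.mem_univ _, ?_⟩
    have e : ∑ l, y i (f l) - q * ((∑ u, y i u) / N) = ∑ l, (y i (f l) - μ i) := by
      rw [Finset.sum_sub_distrib, Finset.sum_const, nsmul_eq_mul, Finset.card_univ,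
        Fintype.card_fin]
    rw [e] at hi
    rw [Finset.mem_union]
    rcases lt_abs.1 hi with h | h
    · left
      exact Finset.mem_filter.2 ⟨Finset.mem_univ _, h⟩
    · right
      refine Finset.mem_filter.2 ⟨Finset.mem_univ _, ?_⟩
      rw [Finset.sum_neg_distrib]
      exact h
  have hle : (I.card : ℝ) ≤ m * (2 * ((N : ℝ) ^ q * (1 / 4) ^ k)) := by
    have h1 : I.card ≤ ∑ i : Fin m, (Bp i ∪ Bn i).card :=
      (Finset.card_le_card hsub).trans Finset.card_biUnion_le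
    have h2 : (I.card : ℝ) ≤ ∑ i : Fin m, ((Bp i ∪ Bn i).card : ℝ) := by exact_mod_cast h1
    refine h2.trans ?_
    have h3 : ∀ i ∈ (univ : Finset (Fin m)), ((Bp i ∪ Bn i).card : ℝ) ≤
        2 * ((N : ℝ) ^ q * (1 / 4) ^ k) := by
      intro i _
      have h4 : ((Bp i ∪ Bn i).card : ℝ) ≤ (Bp i).card + (Bn i).card := by
        exact_mod_cast Finset.card_union_le _ _
      have h5 := hp i
      have h6 := hn i
      linarith
    refine (Finset.sum_le_sum h3).trans ?_
    rw [Finset.sum_const, nsmul_eq_mul, Finset.card_univ, Fintype.card_fin]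
  have hk : (m : ℝ) * (1 / 4) ^ k ≤ 1 / 8 := by
    have h1 : 8 * (m : ℝ) ≤ 4 ^ k := by exact_mod_cast hm
    rw [one_div_pow, mul_one_div, div_le_iff₀ (by positivity)]
    linarith
  have hNq : (0 : ℝ) < (N : ℝ) ^ q := by positivity
  have h7 : (m : ℝ) * (2 * ((N : ℝ) ^ q * (1 / 4) ^ k)) = 2 * (N : ℝ) ^ q * (m * (1 / 4) ^ k) := by
    ring
  rw [h7] at hle
  have h8 : 2 * (N : ℝ) ^ q * (m * (1 / 4) ^ k) ≤ 2 * (N : ℝ) ^ q * (1 / 8) :=
    mul_le_mul_of_nonneg_left hk (by positivity)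
  linarith

theorem samp_main : Pool.Agent.W901.RL.S_SAMP := by
  intro ι hι m q k y hq hqm _ hN hm hy
  exact samp ι m q k y hq hqm hN hm hy

end Pool.Agent.W32.RL
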